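import Pool.Agent.V11295.ProgDim
import Pool.Agent.TH404.AK.Sdc3

set_option autoImplicit false

/-! # Progressions with all common differences in a set `R`: the exponent 1.669587 at every scale

There is one length `k₀` such that in every dimension `n`, for every set `R ⊆ ℝ^n` and every bounded
`B ⊆ ℝ^n` containing a `k₀`-term progression with every common difference in `R`,
`N_δ(R) ≤ C_n N_δ(B) ^ 1.669587` for every `δ > 0`. Hence `dim B ≥ dim R / 1.669587` for the upper and
for the lower Minkowski dimension. With `R = [0,1]^n`: such sets have lower Minkowski dimension at least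
`n / 1.669587`, and `f^M_n(k) ≥ n / 1.669587 > 0.5989 n` for all `k ≥ k₀` and all `n`. -/

open Filter Topology

namespace Pool.Agent.Results.MP_4b405e_nt.AllScalesExponent

/-- The least number of sets of diameter at most `δ` covering `B` (for bounded `B`). -/
noncomputable def coverNum {n : ℕ} (B : Set (EuclideanSpace ℝ (Fin n))) (δ : ℝ) : ℕ :=
  sInf {N | ∃ U : Fin N → Set (EuclideanSpace ℝ (Fin n)),
    (∀ i, ∀ x ∈ U i, ∀ y ∈ U i, dist x y ≤ δ) ∧ B ⊆ ⋃ i, U i}

/-- Upper Minkowski dimension (upper box-counting dimension). -/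
noncomputable def upperMinkowski {n : ℕ} (B : Set (EuclideanSpace ℝ (Fin n))) : EReal :=
  limsup (fun δ : ℝ => ((Real.log (coverNum B δ) / Real.log (1 / δ) : ℝ) : EReal)) (𝓝[>] 0)

/-- Lower Minkowski dimension (lower box-counting dimension). -/
noncomputable def lowerMinkowski {n : ℕ} (B : Set (EuclideanSpace ℝ (Fin n))) : EReal :=
  liminf (fun δ : ℝ => ((Real.log (coverNum B δ) / Real.log (1 / δ) : ℝ) : EReal)) (𝓝[>] 0)

/-- `B` contains a `k`-term progression with every common difference in `R`. -/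
def HasProgressionsIn {n : ℕ} (k : ℕ) (R B : Set (EuclideanSpace ℝ (Fin n))) : Prop :=
  ∀ r ∈ R, ∃ a : EuclideanSpace ℝ (Fin n), ∀ j : ℕ, j < k → a + (j : ℝ) • r ∈ B

/-- the cube `[0,1]^n` -/
def cube (n : ℕ) : Set (EuclideanSpace ℝ (Fin n)) := {r | ∀ i, r i ∈ Set.Icc (0 : ℝ) 1}

/-- `f^M_n(k)`: the infimum of the (upper) Minkowski dimensions of the bounded sets in `ℝ^n` that
contain a `k`-term progression with every common difference in `[0,1]^n` -/
noncomputable def fM (n k : ℕ) : EReal :=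
  ⨅ (B : Set (EuclideanSpace ℝ (Fin n))) (_ : Bornology.IsBounded B)
    (_ : HasProgressionsIn k (cube n) B), upperMinkowski B

theorem result :
    ∃ k₀ : ℕ, 2 ≤ k₀ ∧
      -- arbitrary sets of common differences, every scale
      (∀ n : ℕ, ∃ C : ℝ, 0 < C ∧ ∀ R B : Set (EuclideanSpace ℝ (Fin n)), Bornology.IsBounded B →
        HasProgressionsIn k₀ R B →
        (∀ δ : ℝ, 0 < δ → (coverNum R δ : ℝ) ≤ C * (coverNum B δ : ℝ) ^ (1.669587 : ℝ)) ∧
        (∀ s : ℝ, (s : EReal) ≤ upperMinkowski R →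
          ((s / 1.669587 : ℝ) : EReal) ≤ upperMinkowski B) ∧
        (∀ s : ℝ, (s : EReal) ≤ lowerMinkowski R →
          ((s / 1.669587 : ℝ) : EReal) ≤ lowerMinkowski B)) ∧
      -- all common differences in `[0,1]^n`: lower Minkowski dimension
      (∀ n k : ℕ, k₀ ≤ k → ∀ B : Set (EuclideanSpace ℝ (Fin n)), Bornology.IsBounded B →
        HasProgressionsIn k (cube n) B → (((n : ℝ) / 1.669587 : ℝ) : EReal) ≤ lowerMinkowski B) ∧
      -- the quantity `f^M_n(k)` of the problem
      (∀ n k : ℕ, k₀ ≤ k → (((n : ℝ) / 1.669587 : ℝ) : EReal) ≤ fM n k) := by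
  have hsd : Pool.Agent.W46.KK.SD (1669587 / 1000000) := by
    obtain ⟨S, h⟩ := Pool.Agent.TH404.AK.sdc3
    exact ⟨S, h⟩
  have e : (1.669587 : ℝ) = 1669587 / 1000000 := by norm_num
  rw [e]
  obtain ⟨k₀, _, h1, h2, h3⟩ := Pool.Agent.V11295.ProgAny.main hsd (by norm_num)
  refine ⟨max k₀ 2, le_max_right _ _, fun n => ?_, fun n k hk B hB hP => ?_, fun n k hk => ?_⟩
  · obtain ⟨C, hC, h⟩ := h1 n
    refine ⟨C, hC, fun R B hB hR => ?_⟩
    exact h R B hB fun r hr => by
      obtain ⟨a, ha⟩ := hR r hr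
      exact ⟨a, fun j hj => ha j (lt_of_lt_of_le hj (le_max_left _ _))⟩
  · exact h2 n k ((le_max_left _ _).trans hk) B hB hP
  · exact h3 n k ((le_max_left _ _).trans hk)

end Pool.Agent.Results.MP_4b405e_nt.AllScalesExponent
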