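import Mathlib
import Pool.Agent.V11295.StrCov6

set_option autoImplicit false

/-! # Sets covered at small scales by few sets of small doubling

Let `B ⊆ ℝ^n` contain a `k`-term progression with every common difference in `[0,1]^n`, and suppose that
at arbitrarily small scales `δ` the set `B_δ ⊆ ℤ^n` of the cells of side `δ` that meet `B` is covered by
`δ ^ (-η)` finite sets `D`, unrelated to each other, with `|D + D| ≤ δ ^ (-η) |D|` and
`|D| ≤ δ ^ (-η) |B_δ|`. Then the Minkowski dimension of `B` is at least `n - n / k - o(1)` as `η → 0`, and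
the bound `n - n / k` is attained if `k ∣ n`. In particular Q1 holds for such sets.
At one scale, the same holds for arbitrary sets of common differences, and there the exponent
`n - n / k` is best possible for all `n` and `k`. -/

open Finset Filter Topology
open scoped Pointwise

namespace Pool.Agent.Results.MP_4b405e_nt.StructuredCovers

/-- The least number of sets of diameter at most `δ` covering `B` (for bounded `B`). -/
noncomputable def coverNum {n : ℕ} (B : Set (EuclideanSpace ℝ (Fin n))) (δ : ℝ) : ℕ :=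
  sInf {N | ∃ U : Fin N → Set (EuclideanSpace ℝ (Fin n)),
    (∀ i, ∀ x ∈ U i, ∀ y ∈ U i, dist x y ≤ δ) ∧ B ⊆ ⋃ i, U i}

/-- Upper Minkowski dimension (upper box-counting dimension). -/
noncomputable def upperMinkowski {n : ℕ} (B : Set (EuclideanSpace ℝ (Fin n))) : EReal :=
  limsup (fun δ : ℝ => ((Real.log (coverNum B δ) / Real.log (1 / δ) : ℝ) : EReal)) (𝓝[>] 0)

/-- `B` contains a `k`-term progression with every common difference in `R`. -/
def HasProgressionsIn {n : ℕ} (k : ℕ) (R B : Set (EuclideanSpace ℝ (Fin n))) : Prop :=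
  ∀ r ∈ R, ∃ a : EuclideanSpace ℝ (Fin n), ∀ j : ℕ, j < k → a + (j : ℝ) • r ∈ B

/-- the cube `[0,1]^n` -/
def cube (n : ℕ) : Set (EuclideanSpace ℝ (Fin n)) := {r | ∀ i, r i ∈ Set.Icc (0 : ℝ) 1}

/-- the index in `ℤ^n` of the cell of side `δ` that contains `x` -/
noncomputable def cell {n : ℕ} (δ : ℝ) (x : EuclideanSpace ℝ (Fin n)) : Fin n → ℤ :=
  fun i => ⌊x i / δ⌋

/-- `B_δ`: the cells of side `δ` that meet `B` -/
def cells {n : ℕ} (δ : ℝ) (B : Set (EuclideanSpace ℝ (Fin n))) : Set (Fin n → ℤ) := cell δ '' B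

/-- The cells of side `δ` that meet `B` are covered by at most `L` finite sets `D ⊆ ℤ^n` with
`|D + D| ≤ K |D|` and `|D| ≤ M`. -/
def Structured {n : ℕ} (K L M δ : ℝ) (B : Set (EuclideanSpace ℝ (Fin n))) : Prop :=
  ∃ 𝒟 : Finset (Finset (Fin n → ℤ)), (𝒟.card : ℝ) ≤ L ∧
    (∀ D ∈ 𝒟, ((D + D).card : ℝ) ≤ K * D.card ∧ (D.card : ℝ) ≤ M) ∧
    ∀ x ∈ B, ∃ D ∈ 𝒟, cell δ x ∈ D

/-- For every `η > 0`, at arbitrarily small scales `δ`, the set `B_δ` is covered by at most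
`δ ^ (-η)` sets `D` with `|D + D| ≤ δ ^ (-η) |D|` and `|D| ≤ δ ^ (-η) |B_δ|`. -/
def StructuredAtSmallScales {n : ℕ} (B : Set (EuclideanSpace ℝ (Fin n))) : Prop :=
  ∀ η : ℝ, 0 < η → ∃ᶠ δ : ℝ in 𝓝[>] 0,
    Structured (δ ^ (-η)) (δ ^ (-η)) (δ ^ (-η) * ((cells δ B).ncard : ℝ)) δ B

theorem result :
    -- one scale, arbitrary sets of common differences
    (∀ k : ℕ, ∃ C : ℕ, ∀ n : ℕ, ∃ b : ℝ, 0 < b ∧ ∀ R B : Set (EuclideanSpace ℝ (Fin n)),
      HasProgressionsIn (k + 1) R B → ∀ δ K L M : ℝ, 0 < δ → Structured K L M δ B →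
      ∀ V : Finset (Fin n → ℤ), V.Nonempty → (V : Set (Fin n → ℤ)) ⊆ cells δ R →
        (V.card : ℝ) ^ k ≤ b * ((K * L) ^ C * M ^ (k + 1))) ∧
    -- one scale, all common differences in the cube
    (∀ n k : ℕ, 1 ≤ k → ∀ s : ℝ, s < n - n / k → ∃ η : ℝ, 0 < η ∧ ∃ δ₀ : ℝ, 0 < δ₀ ∧
      ∀ B : Set (EuclideanSpace ℝ (Fin n)), HasProgressionsIn k (cube n) B →
        ∀ δ : ℝ, 0 < δ → δ < δ₀ → ¬ Structured (δ ^ (-η)) (δ ^ (-η)) (δ ^ (-s)) δ B) ∧
    -- the exponent `n - n / k` is best possible at every scale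
    (∀ n k : ℕ, 1 ≤ k → ∃ c : ℝ, 0 < c ∧ ∀ δ : ℝ, 0 < δ → δ ≤ 1 →
      ∃ B : Set (EuclideanSpace ℝ (Fin n)), HasProgressionsIn k (cube n) B ∧
        Structured c k (c * δ ^ (-((n : ℝ) - n / k))) δ B) ∧
    -- Minkowski dimension
    (∀ n k : ℕ, 1 ≤ k → ∀ s : ℝ, s < n - n / k → ∃ η : ℝ, 0 < η ∧
      ∀ B : Set (EuclideanSpace ℝ (Fin n)), Bornology.IsBounded B →
        HasProgressionsIn k (cube n) B →
        (∃ᶠ δ : ℝ in 𝓝[>] 0,
          Structured (δ ^ (-η)) (δ ^ (-η)) (δ ^ (-η) * ((cells δ B).ncard : ℝ)) δ B) →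
        (s : EReal) ≤ upperMinkowski B) ∧
    -- the exact value of the least dimension
    (∀ n k : ℕ, 1 ≤ k → k ∣ n →
      IsLeast {D : EReal | ∃ B : Set (EuclideanSpace ℝ (Fin n)), Bornology.IsBounded B ∧
        HasProgressionsIn k (cube n) B ∧ StructuredAtSmallScales B ∧ upperMinkowski B = D}
        (((n - n / k : ℕ) : ℝ) : EReal)) := by
  have hs : ∀ (n k : ℕ) (s : ℝ), s < (n : ℝ) - n / ((k + 1 : ℕ) : ℝ) →
      (n : ℝ) < (n - s) * (k + 1) := by
    intro n k s h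
    have h1 : (0 : ℝ) < (k : ℝ) + 1 := by positivity
    have h2 : (n : ℝ) / ((k : ℝ) + 1) < n - s := by
      push_cast at h
      linarith
    rwa [div_lt_iff₀ h1] at h2
  have hlow : ∀ n k : ℕ, 1 ≤ k → k ∣ n → ∀ B : Set (EuclideanSpace ℝ (Fin n)),
      Bornology.IsBounded B → HasProgressionsIn k (cube n) B → StructuredAtSmallScales B →
      (((n - n / k : ℕ) : ℝ) : EReal) ≤ upperMinkowski B := by
    intro n k hk hkn B hB hP hA
    obtain ⟨k, rfl⟩ : ∃ m, k = m + 1 := ⟨k - 1, by omega⟩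
    have h1 := Pool.Agent.V11295.StrCov.asymp_dim n k hB hP hA
    have h2 : (((n - n / (k + 1) : ℕ)) : ℝ) = (n : ℝ) - n / (k + 1) := by
      rw [Nat.cast_sub (Nat.div_le_self _ _), Nat.cast_div hkn (by positivity)]
      push_cast
      ring
    rw [h2]
    exact h1
  refine ⟨fun k => ?_, fun n k hk s h => ?_, fun n k hk => ?_, fun n k hk s h => ?_,
    fun n k hk hkn => ⟨?_, ?_⟩⟩
  · obtain ⟨C, hC⟩ := Pool.Agent.V11295.StrCov.one_scale k
    refine ⟨C, fun n => ?_⟩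
    obtain ⟨b, hb, hn⟩ := hC n
    exact ⟨b, hb, fun R B hP δ K L M hδ hS V hV hVR => hn R B hP δ K L M hδ hS V hV
      fun v hv => hVR hv⟩
  · obtain ⟨k, rfl⟩ : ∃ m, k = m + 1 := ⟨k - 1, by omega⟩
    obtain ⟨η, hη, δ₀, hδ₀, hno⟩ := Pool.Agent.V11295.StrCov.no_cover n k (n - s) (hs n k s h)
    refine ⟨η, hη, δ₀, hδ₀, fun B hP δ h1 h2 h3 => hno B hP δ h1 h2 ?_⟩
    rw [sub_sub_cancel]
    exact h3
  · exact Pool.Agent.V11295.StrCov.sharp_scale n k hk
  · obtain ⟨k, rfl⟩ : ∃ m, k = m + 1 := ⟨k - 1, by omega⟩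
    obtain ⟨η, hη, hd⟩ := Pool.Agent.V11295.StrCov.dim_structured n k (n - s) (hs n k s h)
    refine ⟨η, hη, fun B hB hP hS => ?_⟩
    have h1 := hd B hB hP hS
    rwa [sub_sub_cancel] at h1
  · refine ⟨Pool.Agent.V11295.StrCov.exB n k, Pool.Agent.V11295.StrCov.exB_bounded n k,
      Pool.Agent.V11295.StrCov.exB_prog n k, Pool.Agent.V11295.StrCov.exB_asymp n k, ?_⟩
    exact le_antisymm (Pool.Agent.V11295.StrCov.exB_dim n k)
      (hlow n k hk hkn _ (Pool.Agent.V11295.StrCov.exB_bounded n k)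
        (Pool.Agent.V11295.StrCov.exB_prog n k) (Pool.Agent.V11295.StrCov.exB_asymp n k))
  · rintro D ⟨B, hB, hP, hA, rfl⟩
    exact hlow n k hk hkn B hB hP hA

end Pool.Agent.Results.MP_4b405e_nt.StructuredCovers
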